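import Mathlib

/-!
# Numbers unrelated to a Weil polynomial: the norm argument
-/

set_option autoImplicit false

open Polynomial

namespace Pool.Agent.K6.H79.MU

/-- The complex number `β` is unrelated to the polynomial `P`: for each complex root `α` of `P` some
automorphism of `ℂ` maps `α` to its complex conjugate and fixes some positive power of `β`. -/
def Unrelated (P : ℚ[X]) (β : ℂ) : Prop :=
  ∀ α : ℂ, aeval α P = 0 → ∃ τ : ℂ ≃+* ℂ, τ α = (starRingEnd ℂ) α ∧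
    ∃ m : ℕ, 0 < m ∧ τ (β ^ m) = β ^ m

/-- The complex roots of `P`. -/
abbrev Rt (P : ℚ[X]) : Type := {α : ℂ // aeval α P = 0}

theorem aeval_aut (P : ℚ[X]) (τ : ℂ ≃+* ℂ) (α : ℂ) : aeval (τ α) P = τ (aeval α P) := by
  have h := Polynomial.aeval_algHom_apply (RingHom.equivRatAlgHom ℂ ℂ (τ : ℂ →+* ℂ)) α P
  exact h

/-- The action of an automorphism on the roots. -/
def act (P : ℚ[X]) : (ℂ ≃+* ℂ) →* Equiv.Perm (Rt P) where
  toFun τ :=
    { toFun := fun α => ⟨τ α.1, by rw [aeval_aut, α.2, map_zero]⟩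
      invFun := fun α => ⟨τ.symm α.1, by rw [aeval_aut, α.2, map_zero]⟩
      left_inv := fun α => Subtype.ext (τ.symm_apply_apply _)
      right_inv := fun α => Subtype.ext (τ.apply_symm_apply _) }
  map_one' := by ext; rfl
  map_mul' := fun _ _ => by ext; rfl

theorem act_apply (P : ℚ[X]) (τ : ℂ ≃+* ℂ) (α : Rt P) : ((act P τ α : Rt P) : ℂ) = τ α.1 := rfl

/-- The automorphisms that fix a positive power of `β`. -/
def stab (β : ℂ) : Subgroup (ℂ ≃+* ℂ) where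
  carrier := {τ | ∃ m : ℕ, 0 < m ∧ τ (β ^ m) = β ^ m}
  one_mem' := ⟨1, one_pos, rfl⟩
  mul_mem' := by
    rintro σ τ ⟨m, hm, h1⟩ ⟨n, hn, h2⟩
    refine ⟨m * n, Nat.mul_pos hm hn, ?_⟩
    show σ (τ (β ^ (m * n))) = _
    rw [mul_comm m n, pow_mul, map_pow, h2, ← pow_mul, mul_comm n m, pow_mul, map_pow, h1]
  inv_mem' := by
    rintro σ ⟨m, hm, h1⟩
    refine ⟨m, hm, ?_⟩
    show σ.symm (β ^ m) = β ^ m
    rw [RingEquiv.symm_apply_eq, h1]

theorem finite_rt {P : ℚ[X]} (hP : P ≠ 0) : Finite (Rt P) := by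
  have h := Polynomial.rootSet_finite P ℂ
  have h2 : P.rootSet ℂ = {α : ℂ | aeval α P = 0} := by
    ext α
    rw [Polynomial.mem_rootSet]
    exact ⟨fun h => h.2, fun h => ⟨hP, h⟩⟩
  rw [h2] at h
  exact h.to_subtype

/-- **The norm argument.** -/
theorem norm_arg {P : ℚ[X]} (hP : P ≠ 0) {q : ℕ} (hq : 0 < q)
    (hw : ∀ α : ℂ, aeval α P = 0 → α * (starRingEnd ℂ) α = q) {β : ℂ} (hβ : Unrelated P β)
    (s : List (Rt P)) {c : ℚ} {N : ℕ} (hN : 0 < N) (hc : c ≠ 0)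
    (h : (s.map Subtype.val).prod ^ N * β ^ N = (c : ℂ)) :
    ∃ M : ℕ, 0 < M ∧ (s.map Subtype.val).prod ^ (2 * M) = (q : ℂ) ^ (s.length * M) := by
  classical
  have hfin := finite_rt hP
  have hft : Fintype (Rt P) := Fintype.ofFinite _
  have hqC : (q : ℂ) ≠ 0 := by exact_mod_cast hq.ne'
  have hα0 : ∀ α : Rt P, α.1 ≠ 0 := by
    rintro ⟨α, hα⟩ h0
    have := hw α hα
    simp only at h0
    rw [h0, zero_mul] at this
    exact hqC this.symm
  set θ : ℂ := (s.map Subtype.val).prod with hθ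
  let H : Subgroup (Equiv.Perm (Rt P)) := (stab β).map (act P)
  have hH : ∀ σ : H, ∃ τ : ℂ ≃+* ℂ, (∃ m : ℕ, 0 < m ∧ τ (β ^ m) = β ^ m) ∧ act P τ = σ.1 := by
    rintro ⟨σ, τ, hτ, rfl⟩
    exact ⟨τ, hτ, rfl⟩
  choose T hT hTσ using hH
  choose m hm0 hm using hT
  have hHf : Fintype H := Fintype.ofFinite _
  let M₀ : ℕ := ∏ σ : H, m σ
  have hM₀ : 0 < M₀ := Finset.prod_pos fun σ _ => hm0 σ
  have hβM : ∀ σ : H, T σ (β ^ M₀) = β ^ M₀ := by
    intro σ
    obtain ⟨k, hk⟩ : m σ ∣ M₀ := Finset.dvd_prod_of_mem _ (Finset.mem_univ σ)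
    rw [hk, pow_mul, map_pow, hm]
  have hcC : (c : ℂ) ≠ 0 := by exact_mod_cast hc
  have hβ0 : β ^ N ≠ 0 := fun h0 => hcC (by rw [← h, h0, mul_zero])
  have hθN : ∀ σ : H, (T σ θ) ^ (N * M₀) = θ ^ (N * M₀) := by
    intro σ
    have h1 : θ ^ (N * M₀) * β ^ (M₀ * N) = (c : ℂ) ^ M₀ := by
      rw [← h, mul_pow, ← pow_mul, ← pow_mul, mul_comm N M₀]
    have h2 := congrArg (T σ) h1
    rw [map_mul, map_pow, pow_mul β, map_pow, hβM, map_pow, map_ratCast, ← h1, ← pow_mul] at h2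
    have h3 : β ^ (M₀ * N) ≠ 0 := by
      rw [mul_comm, pow_mul]
      exact pow_ne_zero _ hβ0
    exact mul_right_cancel₀ h3 h2
  -- the norms of the roots
  let X : Rt P → ℂ := fun α => ∏ σ : H, ((σ.1 α : Rt P) : ℂ)
  have hX : ∀ α, X α ^ 2 = (q : ℂ) ^ Fintype.card H := by
    intro α
    obtain ⟨τ₀, hτ₀, hm'⟩ := hβ α.1 α.2
    let σ₀ : H := ⟨act P τ₀, τ₀, hm', rfl⟩
    have h1 : X α = ∏ σ : H, (((σ * σ₀).1 α : Rt P) : ℂ) :=
      (Fintype.prod_equiv (Equiv.mulRight σ₀) (fun σ : H => (((σ * σ₀).1 α : Rt P) : ℂ))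
        (fun σ : H => ((σ.1 α : Rt P) : ℂ)) fun _ => rfl).symm
    have h2 : ∀ σ : H, (((σ * σ₀).1 α : Rt P) : ℂ) * ((σ.1 α : Rt P) : ℂ) = q := by
      intro σ
      have h3 : (((σ * σ₀).1 α : Rt P) : ℂ) = T σ ((starRingEnd ℂ) α.1) := by
        have h4 : ((σ * σ₀).1 α : Rt P) = act P (T σ) (act P τ₀ α) := by
          rw [hTσ]
          rfl
        rw [h4, act_apply, act_apply, hτ₀]
      have h5 : ((σ.1 α : Rt P) : ℂ) = T σ α.1 := by
        rw [← hTσ, act_apply]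
      rw [h3, h5, ← map_mul, mul_comm, hw α.1 α.2, map_natCast]
    calc X α ^ 2 = X α * X α := pow_two _
      _ = (∏ σ : H, (((σ * σ₀).1 α : Rt P) : ℂ)) * X α := by rw [← h1]
      _ = ∏ σ : H, ((((σ * σ₀).1 α : Rt P) : ℂ) * ((σ.1 α : Rt P) : ℂ)) := by
        rw [Finset.prod_mul_distrib]
      _ = (q : ℂ) ^ Fintype.card H := by
        rw [Finset.prod_congr rfl fun σ _ => h2 σ, Finset.prod_const, Finset.card_univ]
  have hprod : ∀ l : List (Rt P), ∏ σ : H, T σ (l.map Subtype.val).prod = (l.map X).prod := by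
    intro l
    induction l with
    | nil => simp
    | cons a l ih =>
      simp only [List.map_cons, List.prod_cons, map_mul, Finset.prod_mul_distrib, ih]
      congr 1
      refine Finset.prod_congr rfl fun σ _ => ?_
      rw [← hTσ, act_apply]
  have hsq : ∀ l : List (Rt P), (l.map X).prod ^ 2 = (q : ℂ) ^ (Fintype.card H * l.length) := by
    intro l
    induction l with
    | nil => simp
    | cons a l ih =>
      rw [List.map_cons, List.prod_cons, mul_pow, hX, ih, List.length_cons, ← pow_add]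
      congr 1
      ring
  refine ⟨Fintype.card H * (N * M₀), Nat.mul_pos Fintype.card_pos (Nat.mul_pos hN hM₀), ?_⟩
  have h6 : θ ^ (Fintype.card H * (N * M₀)) = ((s.map X).prod) ^ (N * M₀) := by
    rw [← hprod s, ← Finset.prod_pow]
    rw [Finset.prod_congr rfl fun σ _ => hθN σ, Finset.prod_const, Finset.card_univ, ← pow_mul,
      mul_comm (N * M₀)]
  calc θ ^ (2 * (Fintype.card H * (N * M₀))) = (((s.map X).prod) ^ 2) ^ (N * M₀) := by
        rw [mul_comm 2, pow_mul, h6, ← pow_mul, ← pow_mul, mul_comm (N * M₀) 2]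
    _ = (q : ℂ) ^ (s.length * (Fintype.card H * (N * M₀))) := by
        rw [hsq, ← pow_mul]
        congr 1
        ring

end Pool.Agent.K6.H79.MU
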