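import Mathlib
import Pool.Agent.K6.H79.MU.Norm

/-!
# Eigenvectors in the exterior algebra, and coordinates
-/

set_option autoImplicit false

open Polynomial Module TensorProduct

namespace Pool.Agent.K6.H79.MU

variable {V : Type} [AddCommGroup V] [Module ℂ V]

/-- `F` is diagonalizable and its eigenvalues are roots of the rational polynomial `P`. -/
def IsFrobOf (P : ℚ[X]) (F : V →ₗ[ℂ] V) : Prop :=
  Submodule.span ℂ {v : V | ∃ α : ℂ, aeval α P = 0 ∧ F v = α • v} = ⊤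

/-- `x` is a homogeneous eigenvector with eigenvalue the product of the list `s` of roots. -/
def IsEig (P : ℚ[X]) (F : V →ₗ[ℂ] V) (x : ExteriorAlgebra ℂ V) (s : List (Rt P)) : Prop :=
  x ∈ ⋀[ℂ]^(s.length) V ∧ ExteriorAlgebra.map F x = (s.map Subtype.val).prod • x

theorem span_eigs {P : ℚ[X]} {F : V →ₗ[ℂ] V} (h : IsFrobOf P F) :
    Submodule.span ℂ {x : ExteriorAlgebra ℂ V | ∃ s, IsEig P F x s} = ⊤ := by
  let S : Set V := {v : V | ∃ α : ℂ, aeval α P = 0 ∧ F v = α • v}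
  have h1 : Algebra.adjoin ℂ ((ExteriorAlgebra.ι ℂ : V →ₗ[ℂ] ExteriorAlgebra ℂ V) '' S) = ⊤ := by
    have h2 : Algebra.adjoin ℂ (Set.range (ExteriorAlgebra.ι ℂ : V →ₗ[ℂ] ExteriorAlgebra ℂ V)) =
        ⊤ := CliffordAlgebra.adjoin_range_ι
    rw [← h2]
    have h3 : (Set.range (ExteriorAlgebra.ι ℂ : V →ₗ[ℂ] ExteriorAlgebra ℂ V)) =
        (Submodule.span ℂ ((ExteriorAlgebra.ι ℂ : V →ₗ[ℂ] ExteriorAlgebra ℂ V) '' S) :
          Set (ExteriorAlgebra ℂ V)) := by
      rw [Submodule.span_image]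
      have h4 : Submodule.span ℂ S = ⊤ := h
      rw [h4]
      ext x
      simp
    rw [h3, Algebra.adjoin_span]
  have h5 : Submodule.span ℂ (Submonoid.closure
      ((ExteriorAlgebra.ι ℂ : V →ₗ[ℂ] ExteriorAlgebra ℂ V) '' S) : Set (ExteriorAlgebra ℂ V)) =
      ⊤ := by
    rw [← Algebra.adjoin_eq_span, h1, Algebra.top_toSubmodule]
  rw [eq_top_iff, ← h5]
  refine Submodule.span_mono ?_
  intro x hx
  induction hx using Submonoid.closure_induction with
  | mem x hx =>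
    obtain ⟨v, ⟨α, hα, hv⟩, rfl⟩ := hx
    refine ⟨[⟨α, hα⟩], ?_, ?_⟩
    · show _ ∈ LinearMap.range (ExteriorAlgebra.ι ℂ : V →ₗ[ℂ] ExteriorAlgebra ℂ V) ^ 1
      rw [pow_one]
      exact ⟨v, rfl⟩
    · rw [ExteriorAlgebra.map_apply_ι, hv, map_smul]
      simp
  | one =>
    refine ⟨[], ?_, ?_⟩
    · show _ ∈ LinearMap.range (ExteriorAlgebra.ι ℂ : V →ₗ[ℂ] ExteriorAlgebra ℂ V) ^ 0
      rw [pow_zero]
      exact Submodule.one_le.1 le_rfl
    · rw [map_one]
      simp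
  | mul x y _ _ hx hy =>
    obtain ⟨s, hs, hs'⟩ := hx
    obtain ⟨t, ht, ht'⟩ := hy
    refine ⟨s ++ t, ?_, ?_⟩
    · show _ ∈ LinearMap.range (ExteriorAlgebra.ι ℂ : V →ₗ[ℂ] ExteriorAlgebra ℂ V) ^ _
      rw [List.length_append, pow_add]
      exact Submodule.mul_mem_mul hs ht
    · rw [map_mul, hs', ht', List.map_append, List.prod_append, smul_mul_smul_comm]

/-- A basis of homogeneous eigenvectors. -/
theorem exists_eigbasis {P : ℚ[X]} {F : V →ₗ[ℂ] V} (h : IsFrobOf P F) :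
    ∃ (κ : Type) (b : Basis κ ℂ (ExteriorAlgebra ℂ V)) (s : κ → List (Rt P)),
      ∀ i, IsEig P F (b i) (s i) := by
  obtain ⟨B, hB, hsp, hli⟩ := exists_linearIndependent ℂ
    {x : ExteriorAlgebra ℂ V | ∃ s, IsEig P F x s}
  rw [span_eigs h] at hsp
  have hB' : ∀ i : B, ∃ s, IsEig P F i.1 s := fun i => hB i.2
  choose s hs using hB'
  refine ⟨B, Basis.mk hli (by rw [Subtype.range_coe, hsp]), s, fun i => ?_⟩
  rw [Basis.mk_apply]
  exact hs i

/-- Coordinates of homogeneous elements. -/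
theorem repr_homogeneous {P : ℚ[X]} {F : V →ₗ[ℂ] V} {κ : Type}
    (b : Basis κ ℂ (ExteriorAlgebra ℂ V)) (s : κ → List (Rt P))
    (hs : ∀ i, IsEig P F (b i) (s i)) {j : ℕ} {x : ExteriorAlgebra ℂ V} (hx : x ∈ ⋀[ℂ]^j V)
    (i : κ) (hi : (s i).length ≠ j) : b.repr x i = 0 := by
  classical
  let pr : ExteriorAlgebra ℂ V →ₗ[ℂ] ExteriorAlgebra ℂ V :=
    GradedAlgebra.proj (fun i : ℕ ↦ ⋀[ℂ]^i V) j
  have hpr : ∀ y : ExteriorAlgebra ℂ V, pr y =
      ((DirectSum.decompose (fun i : ℕ ↦ ⋀[ℂ]^i V) y j : ⋀[ℂ]^j V) : ExteriorAlgebra ℂ V) :=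
    fun y => rfl
  have h1 : pr x = x := by
    rw [hpr, DirectSum.decompose_of_mem_same (fun i : ℕ ↦ ⋀[ℂ]^i V) hx]
  have h2 : (b.coord i).comp pr = 0 := by
    refine b.ext fun k => ?_
    rw [LinearMap.comp_apply, hpr, LinearMap.zero_apply]
    by_cases hk : (s k).length = j
    · have h3 : b k ∈ ⋀[ℂ]^j V := hk ▸ (hs k).1
      rw [DirectSum.decompose_of_mem_same (fun i : ℕ ↦ ⋀[ℂ]^i V) h3, Basis.coord_apply, Basis.repr_self,
        Finsupp.single_eq_of_ne]
      rintro rfl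
      exact hi hk
    · rw [DirectSum.decompose_of_mem_ne (fun i : ℕ ↦ ⋀[ℂ]^i V) (hs k).1 hk, map_zero]
  have h3 := LinearMap.congr_fun h2 x
  rw [LinearMap.comp_apply, h1, LinearMap.zero_apply, Basis.coord_apply] at h3
  exact h3

variable {W : Type} [AddCommGroup W] [Module ℂ W]

/-- The coordinate of index `i` of an element of the tensor product. -/
noncomputable def cf {κ : Type} (b : Basis κ ℂ (ExteriorAlgebra ℂ V)) (i : κ) :
    (ExteriorAlgebra ℂ V) ⊗[ℂ] W →ₗ[ℂ] W :=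
  (TensorProduct.lid ℂ W).toLinearMap ∘ₗ (b.coord i).rTensor W

theorem cf_tmul {κ : Type} (b : Basis κ ℂ (ExteriorAlgebra ℂ V)) (i : κ)
    (x : ExteriorAlgebra ℂ V) (w : W) : cf b i (x ⊗ₜ w) = b.repr x i • w := by
  simp [cf]

theorem sum_cf {κ : Type} (b : Basis κ ℂ (ExteriorAlgebra ℂ V))
    (t : (ExteriorAlgebra ℂ V) ⊗[ℂ] W) :
    ∃ S : Finset κ, t = ∑ i ∈ S, b i ⊗ₜ cf b i t := by
  classical
  refine ⟨(TensorProduct.equivFinsuppOfBasisLeft b t).support, ?_⟩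
  have h1 := (TensorProduct.equivFinsuppOfBasisLeft b).symm_apply_apply t
  rw [TensorProduct.equivFinsuppOfBasisLeft_symm_apply, Finsupp.sum] at h1
  conv_lhs => rw [← h1]
  refine Finset.sum_congr rfl fun i _ => ?_
  rw [TensorProduct.equivFinsuppOfBasisLeft_apply]
  rfl

theorem cf_map {P : ℚ[X]} {F : V →ₗ[ℂ] V} {κ : Type}
    (b : Basis κ ℂ (ExteriorAlgebra ℂ V)) (s : κ → List (Rt P))
    (hs : ∀ i, IsEig P F (b i) (s i)) (G : W →ₗ[ℂ] W) (i : κ)
    (t : (ExteriorAlgebra ℂ V) ⊗[ℂ] W) :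
    cf b i (TensorProduct.map (ExteriorAlgebra.map F).toLinearMap G t) =
      ((s i).map Subtype.val).prod • G (cf b i t) := by
  classical
  have h1 : (b.coord i) ∘ₗ (ExteriorAlgebra.map F).toLinearMap =
      ((s i).map Subtype.val).prod • b.coord i := by
    refine b.ext fun k => ?_
    simp only [LinearMap.comp_apply, AlgHom.toLinearMap_apply, (hs k).2, map_smul,
      Basis.coord_apply, Basis.repr_self, LinearMap.smul_apply]
    by_cases hk : k = i
    · rw [hk]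
    · rw [Finsupp.single_eq_of_ne (Ne.symm hk), smul_zero, smul_zero]
  induction t using TensorProduct.induction_on with
  | zero => simp
  | add x y hx hy => simp only [map_add, hx, hy, smul_add]
  | tmul x w =>
    have h2 := LinearMap.congr_fun h1 x
    simp only [LinearMap.comp_apply, AlgHom.toLinearMap_apply, Basis.coord_apply,
      LinearMap.smul_apply, smul_eq_mul] at h2
    rw [TensorProduct.map_tmul, cf_tmul, cf_tmul, AlgHom.toLinearMap_apply, h2, map_smul,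
      smul_smul]

end Pool.Agent.K6.H79.MU
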