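import Mathlib
import Pool.Agent.K6.H79.MU.Basis

/-!
# Products of an abelian variety and a variety over a finite field: definitions
-/

set_option autoImplicit false

open Polynomial Module TensorProduct

namespace Pool.Agent.K6.H79.MU

/-- The conjecture of Tate and the semisimplicity over all finite extensions. `M` is the cohomology
of a variety over the field with `q` elements, `D n` the part of degree `n`, `T` the Frobenius
endomorphism, and `C i` the span of the classes of cycles of codimension `i` over the algebraic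
closure. All generalized eigenvectors in `D (2 i)` of the `N`-th power of `T` (the Frobenius
endomorphism of the extension of degree `N`) for the eigenvalue `(q ^ i) ^ N` are eigenvectors, and
they belong to `C i`. -/
def TateSS {M : Type} [AddCommGroup M] [Module ℂ M] (T : M →ₗ[ℂ] M) (q : ℕ)
    (D C : ℕ → Submodule ℂ M) : Prop :=
  ∀ i N : ℕ, 0 < N → ∀ x ∈ D (2 * i),
    (∃ k : ℕ, ((T ^ N - ((q : ℂ) ^ i) ^ N • (1 : M →ₗ[ℂ] M)) ^ k) x = 0) →
    (T ^ N) x = ((q : ℂ) ^ i) ^ N • x ∧ x ∈ C i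

/-- No power of the Frobenius endomorphism on a cohomology group of odd degree has an eigenvalue
which is a half-integral, but not an integral power of the number of elements of the field. -/
def HalfFree {M : Type} [AddCommGroup M] [Module ℂ M] (T : M →ₗ[ℂ] M) (q : ℕ)
    (D : ℕ → Submodule ℂ M) : Prop :=
  ∀ n c N : ℕ, Odd n → Odd c → 0 < N → ∀ x ∈ D n, (T ^ (2 * N)) x = ((q : ℂ) ^ c) ^ N • x → x = 0

variable {V : Type} [AddCommGroup V] [Module ℂ V] {W : Type} [AddCommGroup W] [Module ℂ W]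

/-- The cohomology of an abelian variety is the exterior algebra of its first cohomology. -/
noncomputable def deg (V : Type) [AddCommGroup V] [Module ℂ V] (n : ℕ) :
    Submodule ℂ (ExteriorAlgebra ℂ V) := ⋀[ℂ]^n V

/-- The Frobenius endomorphism of the cohomology of an abelian variety. -/
noncomputable def frobA (F : V →ₗ[ℂ] V) : ExteriorAlgebra ℂ V →ₗ[ℂ] ExteriorAlgebra ℂ V :=
  (ExteriorAlgebra.map F).toLinearMap

/-- The Frobenius endomorphism of the cohomology of the product (Künneth formula). -/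
noncomputable def frobP (F : V →ₗ[ℂ] V) (G : W →ₗ[ℂ] W) :
    (ExteriorAlgebra ℂ V) ⊗[ℂ] W →ₗ[ℂ] (ExteriorAlgebra ℂ V) ⊗[ℂ] W :=
  TensorProduct.map (frobA F) G

/-- The cohomology of degree `m` of the product (Künneth formula). -/
noncomputable def degP (V : Type) [AddCommGroup V] [Module ℂ V] (H : ℕ → Submodule ℂ W) (m : ℕ) :
    Submodule ℂ ((ExteriorAlgebra ℂ V) ⊗[ℂ] W) :=
  Submodule.span ℂ {t | ∃ j n : ℕ, j + n = m ∧ ∃ x ∈ deg V j, ∃ w ∈ H n, t = x ⊗ₜ w}

/-- Let `x ≠ 0` be a class of odd degree `j` on `A` on which the `2 N`-th power of the Frobenius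
endomorphism is multiplication by `q ^ (j N)`, and `w` a class of degree `2 i - j` on `U` in the
generalized eigenspace of the `2 N`-th power of the Frobenius endomorphism for `q ^ ((2 i - j) N)`. Then
`w` is an eigenvector, and the product of `x` and `w` is algebraic. -/
def OddProducts (F : V →ₗ[ℂ] V) (G : W →ₗ[ℂ] W) (q : ℕ) (H : ℕ → Submodule ℂ W)
    (C : ℕ → Submodule ℂ ((ExteriorAlgebra ℂ V) ⊗[ℂ] W)) : Prop :=
  ∀ i j N : ℕ, Odd j → j ≤ 2 * i → 0 < N → ∀ x ∈ deg V j, x ≠ 0 →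
    (frobA F ^ (2 * N)) x = ((q : ℂ) ^ j) ^ N • x → ∀ w ∈ H (2 * i - j),
    (∃ k : ℕ, ((G ^ (2 * N) - ((q : ℂ) ^ (2 * i - j)) ^ N • (1 : W →ₗ[ℂ] W)) ^ k) w = 0) →
    (G ^ (2 * N)) w = ((q : ℂ) ^ (2 * i - j)) ^ N • w ∧ x ⊗ₜ w ∈ C i

/-- The restriction to `{0} × U` of the classes on `A × U`. -/
noncomputable def restrU : (ExteriorAlgebra ℂ V) ⊗[ℂ] W →ₗ[ℂ] W :=
  (TensorProduct.lid ℂ W).toLinearMap ∘ₗ
    (ExteriorAlgebra.algebraMapInv (R := ℂ) (M := V)).toLinearMap.rTensor W

/-- The restriction to `A × {x}` of the classes on `A × U`, where `ε` is the restriction of classes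
on `U` to the point `x`. -/
noncomputable def restrA (ε : W →ₗ[ℂ] ℂ) : (ExteriorAlgebra ℂ V) ⊗[ℂ] W →ₗ[ℂ] ExteriorAlgebra ℂ V :=
  (TensorProduct.rid ℂ (ExteriorAlgebra ℂ V)).toLinearMap ∘ₗ ε.lTensor (ExteriorAlgebra ℂ V)

/-- The cohomology of a variety `U` over the field with `q` elements. -/
structure IsVariety (H : ℕ → Submodule ℂ W) (G : W →ₗ[ℂ] W) (e : W) (ε : W →ₗ[ℂ] ℂ) : Prop where
  fin : ∀ n, FiniteDimensional ℂ (H n)
  stable : ∀ n, ∀ w ∈ H n, G w ∈ H n
  /-- the class of `U` -/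
  unit : e ∈ H 0
  frob : G e = e
  /-- the restriction to a point of `U` -/
  point : ε e = 1

/-- The classes of algebraic cycles on `A`, `U` and `A × U`. -/
structure IsCycles (ε : W →ₗ[ℂ] ℂ) (CA : ℕ → Submodule ℂ (ExteriorAlgebra ℂ V))
    (CU : ℕ → Submodule ℂ W) (C : ℕ → Submodule ℂ ((ExteriorAlgebra ℂ V) ⊗[ℂ] W)) : Prop where
  /-- the product of cycles -/
  prod : ∀ j k, ∀ x ∈ CA j, ∀ w ∈ CU k, x ⊗ₜ w ∈ C (j + k)
  /-- the restriction to `A × {x}` -/
  left : ∀ i, ∀ t ∈ C i, restrA ε t ∈ CA i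
  /-- the restriction to `{0} × U` -/
  right : ∀ i, ∀ t ∈ C i, restrU t ∈ CU i

end Pool.Agent.K6.H79.MU
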