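import Mathlib
import Pool.Agent.K6.H79.MU.Defs

/-!
# Products of an abelian variety and an unrelated variety over a finite field
-/

set_option autoImplicit false

open Polynomial Module TensorProduct

namespace Pool.Agent.K6.H79.MU

section lin

variable {M : Type} [AddCommGroup M] [Module ℂ M]

/-- The `k`-th power of `T ^ N - μ`. -/
def gen (T : M →ₗ[ℂ] M) (μ : ℂ) (N k : ℕ) : M →ₗ[ℂ] M := (T ^ N - μ • (1 : M →ₗ[ℂ] M)) ^ k

theorem gen_zero (T : M →ₗ[ℂ] M) (μ : ℂ) (N : ℕ) (x : M) : gen T μ N 0 x = x := by simp [gen]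

theorem gen_succ (T : M →ₗ[ℂ] M) (μ : ℂ) (N k : ℕ) (x : M) :
    gen T μ N (k + 1) x = gen T μ N k ((T ^ N) x - μ • x) := by
  simp [gen, pow_succ]

theorem eigen_pow {T : M →ₗ[ℂ] M} {μ : ℂ} {x : M} (h : T x = μ • x) (n : ℕ) :
    (T ^ n) x = μ ^ n • x := by
  induction n with
  | zero => simp
  | succ n ih => rw [pow_succ, Module.End.mul_apply, h, map_smul, ih, smul_smul, pow_succ, mul_comm]

/-- A generalized eigenvector on which a power of `T` acts as a scalar is an eigenvector. -/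
theorem eigen_two {T : M →ₗ[ℂ] M} {μ : ℂ} (hμ : μ ≠ 0) {x : M}
    (h2 : T (T x - μ • x) = μ • (T x - μ • x)) {k : ℕ} (hk : 0 < k)
    (h : (T ^ k) x = μ ^ k • x) : T x = μ • x := by
  have h3 : ∀ k : ℕ, (T ^ k) x = μ ^ k • x + ((k : ℂ) * μ ^ (k - 1)) • (T x - μ • x) := by
    intro k
    induction k with
    | zero => simp
    | succ k ih =>
      rw [pow_succ', Module.End.mul_apply, ih, map_add, map_smul, map_smul, h2]
      rcases Nat.eq_zero_or_pos k with rfl | hk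
      · simp
      · have h4 : μ ^ k = μ ^ (k - 1) * μ := by
          rw [← pow_succ, Nat.sub_add_cancel hk]
        have h5 : T x = (T x - μ • x) + μ • x := by abel
        set w := T x - μ • x with hw
        rw [h5, Nat.add_sub_cancel, pow_succ, h4]
        push_cast
        module
  have h6 := h3 k
  rw [h] at h6
  have h7 : ((k : ℂ) * μ ^ (k - 1)) • (T x - μ • x) = 0 := by
    have := h6.symm
    rwa [add_eq_left] at this
  rcases smul_eq_zero.1 h7 with h8 | h8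
  · exact absurd h8 (mul_ne_zero (Nat.cast_ne_zero.2 hk.ne') (pow_ne_zero _ hμ))
  · exact sub_eq_zero.1 h8

theorem eigen_of_gen {T : M →ₗ[ℂ] M} {μ : ℂ} (hμ : μ ≠ 0) {n : ℕ} (hn : 0 < n) (k : ℕ) :
    ∀ x : M, ((T - μ • (1 : M →ₗ[ℂ] M)) ^ k) x = 0 → (T ^ n) x = μ ^ n • x → T x = μ • x := by
  induction k with
  | zero =>
    intro x hx _
    have h0 : x = 0 := by simpa using hx
    rw [h0, map_zero, smul_zero]
  | succ k ih =>
    intro x hx hT
    have h1 : (T - μ • (1 : M →ₗ[ℂ] M)) x = T x - μ • x := by simp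
    have h2 := ih (T x - μ • x) (by rw [← h1, ← Module.End.mul_apply, ← pow_succ, hx]) (by
      have h3 : (T ^ n) (T x) = T ((T ^ n) x) := by
        rw [← Module.End.mul_apply, ← Module.End.mul_apply, ← pow_succ, ← pow_succ']
      rw [map_sub, map_smul, h3, hT, map_smul, smul_sub, smul_comm])
    exact eigen_two hμ h2 hn hT

/-- Generalized eigenvectors of powers. -/
theorem gen_pow {T : M →ₗ[ℂ] M} {μ : ℂ} {x : M} {k : ℕ}
    (h : ((T - μ • (1 : M →ₗ[ℂ] M)) ^ k) x = 0) (n : ℕ) :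
    ((T ^ n - μ ^ n • (1 : M →ₗ[ℂ] M)) ^ k) x = 0 := by
  have hc : Commute T (μ • (1 : M →ₗ[ℂ] M)) := (Commute.one_right T).smul_right μ
  have h1 : μ ^ n • (1 : M →ₗ[ℂ] M) = (μ • (1 : M →ₗ[ℂ] M)) ^ n := by
    rw [_root_.smul_pow, one_pow]
  obtain ⟨S, hS⟩ : ∃ S : M →ₗ[ℂ] M, T ^ n - μ ^ n • (1 : M →ₗ[ℂ] M) =
      S * (T - μ • (1 : M →ₗ[ℂ] M)) ∧ Commute S (T - μ • (1 : M →ₗ[ℂ] M)) := by
    refine ⟨∑ i ∈ Finset.range n, T ^ i * (μ • (1 : M →ₗ[ℂ] M)) ^ (n - 1 - i), ?_, ?_⟩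
    · rw [h1]
      exact (hc.geom_sum₂_mul n).symm
    · refine Commute.sum_left _ _ _ fun i _ => ?_
      have h2 : Commute T (T - μ • (1 : M →ₗ[ℂ] M)) := (Commute.refl T).sub_right hc
      have h3 : Commute (μ • (1 : M →ₗ[ℂ] M)) (T - μ • (1 : M →ₗ[ℂ] M)) :=
        hc.symm.sub_right (Commute.refl _)
      exact (h2.pow_left i).mul_left (h3.pow_left _)
  rw [hS.1, hS.2.mul_pow, Module.End.mul_apply, h, map_zero]

end lin

variable {V : Type} [AddCommGroup V] [Module ℂ V] {W : Type} [AddCommGroup W] [Module ℂ W]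

/-- An eigenvalue from a generalized eigenvector of a power. -/
theorem exists_eigen {H : Submodule ℂ W} [FiniteDimensional ℂ H] {G : W →ₗ[ℂ] W}
    (hG : ∀ w ∈ H, G w ∈ H) {N k : ℕ} {ν : ℂ} {w : W} (hw : w ∈ H) (hw0 : w ≠ 0)
    (h : ((G ^ N - ν • (1 : W →ₗ[ℂ] W)) ^ k) w = 0) :
    ∃ β : ℂ, β ^ N = ν ∧ ∃ u ∈ H, u ≠ 0 ∧ G u = β • u := by
  let E : Submodule ℂ W := H ⊓ LinearMap.ker ((G ^ N - ν • (1 : W →ₗ[ℂ] W)) ^ k)
  have hE : ∀ u ∈ E, G u ∈ E := by
    rintro u ⟨h1, h2⟩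
    refine ⟨hG u h1, ?_⟩
    rw [SetLike.mem_coe, LinearMap.mem_ker] at h2 ⊢
    have hc : Commute G ((G ^ N - ν • (1 : W →ₗ[ℂ] W)) ^ k) :=
      (((Commute.refl G).pow_right N).sub_right ((Commute.one_right G).smul_right ν)).pow_right k
    rw [← Module.End.mul_apply, ← hc.eq, Module.End.mul_apply, h2, map_zero]
  have hfd : FiniteDimensional ℂ E :=
    Submodule.finiteDimensional_of_le (inf_le_left : E ≤ H)
  have hnt : Nontrivial E := ⟨⟨⟨w, hw, LinearMap.mem_ker.2 h⟩, 0, fun h0 =>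
    hw0 (congrArg Subtype.val h0)⟩⟩
  obtain ⟨β, hβ⟩ := Module.End.exists_eigenvalue (G.restrict hE)
  obtain ⟨u, hu⟩ := hβ.exists_hasEigenvector
  have hu1 : G u.1 = β • u.1 := congrArg Subtype.val hu.apply_eq_smul
  have hu0 : u.1 ≠ 0 := fun h0 => hu.2 (Subtype.ext h0)
  refine ⟨β, ?_, u.1, u.2.1, hu0, hu1⟩
  have h3 : (G ^ N - ν • (1 : W →ₗ[ℂ] W)) u.1 = (β ^ N - ν) • u.1 := by
    rw [LinearMap.sub_apply, LinearMap.smul_apply, Module.End.one_apply, eigen_pow hu1, sub_smul]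
  have h4 := eigen_pow h3 k
  rw [LinearMap.mem_ker.1 u.2.2] at h4
  rcases smul_eq_zero.1 h4.symm with h5 | h5
  · exact sub_eq_zero.1 (pow_eq_zero_iff (fun h0 => by
      rw [h0, pow_zero] at h5
      exact one_ne_zero h5) |>.1 h5)
  · exact absurd h5 hu0

theorem cf_gen {P : ℚ[X]} {F : V →ₗ[ℂ] V} {κ : Type}
    (b : Basis κ ℂ (ExteriorAlgebra ℂ V)) (s : κ → List (Rt P))
    (hs : ∀ i, IsEig P F (b i) (s i)) (G : W →ₗ[ℂ] W) (i : κ) {μ : ℂ} {N k : ℕ}
    {t : (ExteriorAlgebra ℂ V) ⊗[ℂ] W}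
    (h : gen (frobP F G) μ N k t = 0) :
    (((((s i).map Subtype.val).prod) ^ N • G ^ N - μ • (1 : W →ₗ[ℂ] W)) ^ k) (cf b i t) = 0 := by
  have h1 : ∀ (N : ℕ) (t : (ExteriorAlgebra ℂ V) ⊗[ℂ] W), cf b i ((frobP F G ^ N) t) =
      ((((s i).map Subtype.val).prod) ^ N • G ^ N) (cf b i t) := by
    intro N
    induction N with
    | zero => intro t; simp
    | succ N ih =>
      intro t
      rw [pow_succ, Module.End.mul_apply, ih]
      have h2 := cf_map b s hs G i t
      have h3 : cf b i (frobP F G t) = ((s i).map Subtype.val).prod • G (cf b i t) := h2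
      rw [h3, LinearMap.smul_apply, map_smul, smul_smul, LinearMap.smul_apply, pow_succ, pow_succ,
        Module.End.mul_apply]
  have h4 : ∀ (k : ℕ) (t : (ExteriorAlgebra ℂ V) ⊗[ℂ] W),
      cf b i (gen (frobP F G) μ N k t) =
      (((((s i).map Subtype.val).prod) ^ N • G ^ N - μ • (1 : W →ₗ[ℂ] W)) ^ k) (cf b i t) := by
    intro k
    induction k with
    | zero => intro t; rw [gen_zero]; simp
    | succ k ih =>
      intro t
      rw [gen_succ, ih, pow_succ, Module.End.mul_apply]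
      congr 1
      rw [map_sub, h1, map_smul, LinearMap.sub_apply,
        LinearMap.smul_apply, LinearMap.smul_apply, Module.End.one_apply]
  rw [← h4, h, map_zero]

theorem cf_deg {P : ℚ[X]} {F : V →ₗ[ℂ] V} {κ : Type}
    (b : Basis κ ℂ (ExteriorAlgebra ℂ V)) (s : κ → List (Rt P))
    (hs : ∀ i, IsEig P F (b i) (s i)) {H : ℕ → Submodule ℂ W} {m : ℕ}
    {t : (ExteriorAlgebra ℂ V) ⊗[ℂ] W} (ht : t ∈ degP V H m) (i : κ) :
    cf b i t = 0 ∨ ((s i).length ≤ m ∧ cf b i t ∈ H (m - (s i).length)) := by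
  by_cases hm : (s i).length ≤ m
  · right
    refine ⟨hm, ?_⟩
    induction ht using Submodule.span_induction with
    | zero => rw [map_zero]; exact Submodule.zero_mem _
    | add x y _ _ hx hy => rw [map_add]; exact Submodule.add_mem _ hx hy
    | smul c x _ hx => rw [map_smul]; exact Submodule.smul_mem _ _ hx
    | mem x hx =>
      obtain ⟨j, n, hjn, y, hy, w, hw, rfl⟩ := hx
      rw [cf_tmul]
      by_cases hi : (s i).length = j
      · have : m - (s i).length = n := by omega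
        rw [this]
        exact Submodule.smul_mem _ _ hw
      · rw [repr_homogeneous b s hs hy i hi, zero_smul]
        exact Submodule.zero_mem _
  · left
    induction ht using Submodule.span_induction with
    | zero => rw [map_zero]
    | add x y _ _ hx hy => rw [map_add, hx, hy, add_zero]
    | smul c x _ hx => rw [map_smul, hx, smul_zero]
    | mem x hx =>
      obtain ⟨j, n, hjn, y, hy, w, hw, rfl⟩ := hx
      rw [cf_tmul, repr_homogeneous b s hs hy i (by omega), zero_smul]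

theorem smul_gen {G : W →ₗ[ℂ] W} {θ μ : ℂ} (hθ : θ ≠ 0) {N k : ℕ} {w : W}
    (h : ((θ ^ N • G ^ N - μ • (1 : W →ₗ[ℂ] W)) ^ k) w = 0) :
    ((G ^ N - (μ / θ ^ N) • (1 : W →ₗ[ℂ] W)) ^ k) w = 0 := by
  have h1 : θ ^ N • G ^ N - μ • (1 : W →ₗ[ℂ] W) =
      θ ^ N • (G ^ N - (μ / θ ^ N) • (1 : W →ₗ[ℂ] W)) := by
    rw [smul_sub, smul_smul, mul_div_cancel₀ _ (pow_ne_zero _ hθ)]
  rw [h1, _root_.smul_pow, LinearMap.smul_apply] at h
  exact (smul_eq_zero.1 h).resolve_left (pow_ne_zero _ (pow_ne_zero _ hθ))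

/-- **The Tate conjecture and the semisimplicity for the product of an abelian variety and an
unrelated variety.** -/
theorem tateSS_of {P : ℚ[X]} (hP : P ≠ 0) {q : ℕ} (hq : 0 < q)
    (hw : ∀ α : ℂ, aeval α P = 0 → α * (starRingEnd ℂ) α = q) {F : V →ₗ[ℂ] V}
    (hF : IsFrobOf P F) {H : ℕ → Submodule ℂ W} {G : W →ₗ[ℂ] W} {e : W} {ε : W →ₗ[ℂ] ℂ}
    (hU : IsVariety H G e ε)
    (hun : ∀ n, ∀ w ∈ H n, w ≠ 0 → ∀ β : ℂ, G w = β • w → Unrelated P β)
    {CA : ℕ → Submodule ℂ (ExteriorAlgebra ℂ V)} {CU : ℕ → Submodule ℂ W}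
    {C : ℕ → Submodule ℂ ((ExteriorAlgebra ℂ V) ⊗[ℂ] W)} (hC : IsCycles ε CA CU C)
    (hTA : TateSS (frobA F) q (deg V) CA) (hTU : TateSS G q H CU)
    (hodd : OddProducts F G q H C) :
    TateSS (frobP F G) q (degP V H) C := by
  classical
  intro i N hN t ht hgen
  obtain ⟨k, hk⟩ := hgen
  obtain ⟨κ, b, s, hs⟩ := exists_eigbasis hF
  have hqC : (q : ℂ) ≠ 0 := by exact_mod_cast hq.ne'
  have hα0 : ∀ α : Rt P, α.1 ≠ 0 := by
    rintro ⟨α, hα⟩ h0
    have := hw α hα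
    simp only at h0
    rw [h0, zero_mul] at this
    exact hqC this.symm
  have hθ0 : ∀ l : List (Rt P), (l.map Subtype.val).prod ≠ 0 := by
    intro l
    induction l with
    | nil => simp
    | cons a l ih =>
      rw [List.map_cons, List.prod_cons]
      exact mul_ne_zero (hα0 a) ih
  have hμ0 : ((q : ℂ) ^ i) ^ N ≠ 0 := pow_ne_zero _ (pow_ne_zero _ hqC)
  have hmain : ∀ x : κ, cf b x t = 0 ∨
      ((((s x).map Subtype.val).prod) ^ N • (G ^ N) (cf b x t) = ((q : ℂ) ^ i) ^ N • cf b x t ∧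
        b x ⊗ₜ cf b x t ∈ C i) := by
    intro x
    by_cases hx0 : cf b x t = 0
    · exact Or.inl hx0
    right
    rcases cf_deg b s hs ht x with h0 | ⟨hle, hmem⟩
    · exact absurd h0 hx0
    set w := cf b x t with hwdef
    set θ : ℂ := ((s x).map Subtype.val).prod with hθ
    set l := (s x).length with hl
    have h1 := cf_gen b s hs G x hk
    rw [← hwdef, ← hθ] at h1
    have h2 := smul_gen (hθ0 (s x)) h1
    have hfin := hU.fin (2 * i - l)
    obtain ⟨β, hβ, u, hu, hu0, hGu⟩ := exists_eigen (hU.stable _) hmem hx0 h2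
    obtain ⟨M, hM, hnorm⟩ := norm_arg hP hq hw (hun _ u hu hu0 β hGu) (s x)
      (c := ((q : ℚ) ^ i) ^ N) hN (pow_ne_zero _ (pow_ne_zero _ (by exact_mod_cast hq.ne')))
      (by
        rw [hβ, ← hθ, mul_div_cancel₀ _ (pow_ne_zero _ (hθ0 (s x)))]
        push_cast
        rfl)
    rw [← hθ, ← hl] at hnorm
    have hbx : ExteriorAlgebra.map F (b x) = θ • b x := (hs x).2
    have hbx' : frobA F (b x) = θ • b x := hbx
    have hbpow : (frobA F ^ (2 * M)) (b x) = ((q : ℂ) ^ l) ^ M • b x := by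
      rw [eigen_pow hbx', hnorm, pow_mul]
    have hbl : b x ∈ deg V l := (hs x).1
    have hbne : b x ≠ 0 := b.ne_zero x
    -- the eigenvalue on the side of `U`
    have h3 := gen_pow h2 (2 * M)
    rw [← pow_mul] at h3
    have h4 : (((q : ℂ) ^ i) ^ N / θ ^ N) ^ (2 * M) * ((q : ℂ) ^ l) ^ (N * M) =
        ((q : ℂ) ^ (2 * i)) ^ (N * M) := by
      have h5 : θ ^ (N * (2 * M)) = ((q : ℂ) ^ l) ^ (N * M) := by
        rw [mul_comm N (2 * M), pow_mul, hnorm, ← pow_mul, ← pow_mul]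
        congr 1
        ring
      rw [div_pow, ← pow_mul θ, h5, div_mul_cancel₀ _ (pow_ne_zero _ (pow_ne_zero _ hqC))]
      simp only [← pow_mul]
      congr 1
      ring
    have hNM : 0 < N * M := Nat.mul_pos hN hM
    rcases Nat.even_or_odd l with ⟨j, hj⟩ | hlodd
    · -- even degree
      have hji : j ≤ i := by omega
      have h5 : (((q : ℂ) ^ i) ^ N / θ ^ N) ^ (2 * M) =
          ((q : ℂ) ^ (i - j)) ^ (N * (2 * M)) := by
        have h6 : ((q : ℂ) ^ l) ^ (N * M) ≠ 0 := pow_ne_zero _ (pow_ne_zero _ hqC)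
        apply mul_right_cancel₀ h6
        rw [h4]
        simp only [← pow_mul, ← pow_add]
        congr 1
        obtain ⟨d, rfl⟩ : ∃ d, i = j + d := ⟨i - j, by omega⟩
        rw [Nat.add_sub_cancel_left, hj]
        ring
      rw [h5] at h3
      have hdeg : 2 * i - l = 2 * (i - j) := by omega
      rw [hdeg] at hmem
      obtain ⟨h7, h8⟩ := hTU (i - j) (N * (2 * M)) (Nat.mul_pos hN (by omega)) w hmem
        ⟨k, h3⟩
      have h9 : (θ ^ N • G ^ N) w = ((q : ℂ) ^ i) ^ N • w := by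
        refine eigen_of_gen hμ0 (n := 2 * M) (by omega) k w h1 ?_
        have hθne : θ ^ N ≠ 0 := pow_ne_zero _ (hθ0 (s x))
        rw [_root_.smul_pow, LinearMap.smul_apply, ← pow_mul G, h7, smul_smul, ← h5, ← mul_pow,
          mul_div_cancel₀ _ hθne]
      refine ⟨by rwa [LinearMap.smul_apply] at h9, ?_⟩
      have h10 : b x ∈ CA j := by
        have hbl' : b x ∈ deg V (2 * j) := by
          rw [show 2 * j = l by omega]
          exact hbl
        refine (hTA j (2 * M) (by omega) (b x) hbl' ⟨1, ?_⟩).2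
        rw [pow_one, LinearMap.sub_apply, hbpow, LinearMap.smul_apply, Module.End.one_apply,
          sub_eq_zero]
        congr 1
        simp only [← pow_mul]
        congr 1
        rw [hj]
        ring
      have h11 := hC.prod j (i - j) (b x) h10 w h8
      rwa [Nat.add_sub_cancel' hji] at h11
    · -- odd degree
      have h5 : (((q : ℂ) ^ i) ^ N / θ ^ N) ^ (2 * M) = ((q : ℂ) ^ (2 * i - l)) ^ (N * M) := by
        have h7 : ((q : ℂ) ^ l) ^ (N * M) ≠ 0 := pow_ne_zero _ (pow_ne_zero _ hqC)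
        apply mul_right_cancel₀ h7
        rw [h4, ← mul_pow, ← pow_add, Nat.sub_add_cancel hle]
      rw [h5, show N * (2 * M) = 2 * (N * M) by ring] at h3
      have hb2 : (frobA F ^ (2 * (N * M))) (b x) = ((q : ℂ) ^ l) ^ (N * M) • b x := by
        rw [show 2 * (N * M) = (2 * M) * N by ring, pow_mul, eigen_pow hbpow, ← pow_mul,
          mul_comm M N]
      obtain ⟨h7, h8⟩ := hodd i l (N * M) hlodd hle hNM (b x) hbl hbne hb2 w hmem ⟨k, h3⟩
      have h9 : (θ ^ N • G ^ N) w = ((q : ℂ) ^ i) ^ N • w := by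
        refine eigen_of_gen hμ0 (n := 2 * M) (by omega) k w h1 ?_
        have hθne : θ ^ N ≠ 0 := pow_ne_zero _ (hθ0 (s x))
        rw [_root_.smul_pow, LinearMap.smul_apply, ← pow_mul G,
          show N * (2 * M) = 2 * (N * M) by ring, h7, smul_smul, ← h5, ← mul_pow,
          mul_div_cancel₀ _ hθne]
      exact ⟨by rwa [LinearMap.smul_apply] at h9, h8⟩
  obtain ⟨S, hS⟩ := sum_cf b t
  constructor
  · have h1 : ∀ x : κ, (frobP F G ^ N) (b x ⊗ₜ[ℂ] cf b x t) =
        ((q : ℂ) ^ i) ^ N • (b x ⊗ₜ[ℂ] cf b x t) := by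
      intro x
      have h2 : ∀ N : ℕ, (frobP F G ^ N) (b x ⊗ₜ[ℂ] cf b x t) =
          b x ⊗ₜ[ℂ] ((((s x).map Subtype.val).prod) ^ N • (G ^ N) (cf b x t)) := by
        intro N
        induction N with
        | zero => simp
        | succ N ih =>
          rw [pow_succ', Module.End.mul_apply, ih]
          have h3 : frobA F (b x) = ((s x).map Subtype.val).prod • b x := (hs x).2
          rw [frobP, TensorProduct.map_tmul, h3, map_smul, TensorProduct.smul_tmul, smul_smul,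
            pow_succ', pow_succ', Module.End.mul_apply]
      rw [h2]
      rcases hmain x with h0 | ⟨h3, _⟩
      · rw [h0, map_zero, smul_zero, TensorProduct.tmul_zero, smul_zero]
      · rw [h3, TensorProduct.tmul_smul]
    conv_lhs => rw [hS]
    conv_rhs => rw [hS]
    rw [map_sum, Finset.smul_sum]
    exact Finset.sum_congr rfl fun x _ => h1 x
  · rw [hS]
    refine Submodule.sum_mem _ fun x _ => ?_
    rcases hmain x with h0 | ⟨_, h3⟩
    · rw [h0, TensorProduct.tmul_zero]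
      exact Submodule.zero_mem _
    · exact h3

theorem restrU_tmul (x : ExteriorAlgebra ℂ V) (w : W) :
    restrU (x ⊗ₜ[ℂ] w) = ExteriorAlgebra.algebraMapInv x • w := by
  simp [restrU]

theorem restrA_tmul (ε : W →ₗ[ℂ] ℂ) (x : ExteriorAlgebra ℂ V) (w : W) :
    restrA ε (x ⊗ₜ[ℂ] w) = ε w • x := by
  simp [restrA]

theorem one_mem_deg : (1 : ExteriorAlgebra ℂ V) ∈ deg V 0 := by
  show _ ∈ LinearMap.range (ExteriorAlgebra.ι ℂ : V →ₗ[ℂ] ExteriorAlgebra ℂ V) ^ 0
  rw [pow_zero]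
  exact Submodule.one_le.1 le_rfl

theorem gen_left {F : V →ₗ[ℂ] V} {G : W →ₗ[ℂ] W} {e : W} (he : G e = e) {N k : ℕ} {μ : ℂ}
    {x : ExteriorAlgebra ℂ V}
    (h : gen (frobA F) μ N k x = 0) :
    gen (frobP F G) μ N k (x ⊗ₜ e) = 0 := by
  have h1 : ∀ (N : ℕ) (x : ExteriorAlgebra ℂ V), (frobP F G ^ N) (x ⊗ₜ[ℂ] e) =
      ((frobA F ^ N) x) ⊗ₜ[ℂ] e := by
    intro N
    induction N with
    | zero => intro x; simp
    | succ N ih =>
      intro x
      rw [pow_succ, Module.End.mul_apply, frobP, TensorProduct.map_tmul, he, ← frobP, ih, pow_succ,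
        Module.End.mul_apply]
  have h2 : ∀ (k : ℕ) (x : ExteriorAlgebra ℂ V),
      gen (frobP F G) μ N k (x ⊗ₜ e) = (gen (frobA F) μ N k x) ⊗ₜ e := by
    intro k
    induction k with
    | zero => intro x; rw [gen_zero, gen_zero]
    | succ k ih =>
      intro x
      rw [gen_succ, h1, TensorProduct.smul_tmul', ← TensorProduct.sub_tmul, ih, gen_succ]
  rw [h2, h, TensorProduct.zero_tmul]

theorem frobA_one (F : V →ₗ[ℂ] V) : frobA F 1 = 1 := map_one (ExteriorAlgebra.map F)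

theorem gen_right {F : V →ₗ[ℂ] V} {G : W →ₗ[ℂ] W} {N k : ℕ} {μ : ℂ} {w : W}
    (h : gen G μ N k w = 0) :
    gen (frobP F G) μ N k ((1 : ExteriorAlgebra ℂ V) ⊗ₜ w) = 0 := by
  have h1 : ∀ (N : ℕ) (w : W), (frobP F G ^ N) ((1 : ExteriorAlgebra ℂ V) ⊗ₜ[ℂ] w) =
      (1 : ExteriorAlgebra ℂ V) ⊗ₜ[ℂ] ((G ^ N) w) := by
    intro N
    induction N with
    | zero => intro w; simp
    | succ N ih =>
      intro w
      rw [pow_succ, Module.End.mul_apply, frobP, TensorProduct.map_tmul, frobA_one, ← frobP, ih,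
        pow_succ, Module.End.mul_apply]
  have h2 : ∀ (k : ℕ) (w : W),
      gen (frobP F G) μ N k ((1 : ExteriorAlgebra ℂ V) ⊗ₜ w) =
      (1 : ExteriorAlgebra ℂ V) ⊗ₜ (gen G μ N k w) := by
    intro k
    induction k with
    | zero => intro w; rw [gen_zero, gen_zero]
    | succ k ih =>
      intro w
      rw [gen_succ, h1, ← TensorProduct.tmul_smul, ← TensorProduct.tmul_sub, ih, gen_succ]
  rw [h2, h, TensorProduct.tmul_zero]

theorem tmul_left_cancel {x : ExteriorAlgebra ℂ V} (hx : x ≠ 0) {w : W}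
    (h : x ⊗ₜ[ℂ] w = 0) : w = 0 := by
  have h0 : ¬ ∀ f : Module.Dual ℂ (ExteriorAlgebra ℂ V), f x = 0 := fun h1 =>
    hx ((Module.forall_dual_apply_eq_zero_iff ℂ x).1 h1)
  push Not at h0
  obtain ⟨f, hf⟩ := h0
  have h1 := congrArg ((TensorProduct.lid ℂ W).toLinearMap ∘ₗ f.rTensor W) h
  rw [map_zero] at h1
  have h2 : f x • w = 0 := by simpa using h1
  exact (smul_eq_zero.1 h2).resolve_left hf

theorem frobP_pow (F : V →ₗ[ℂ] V) (G : W →ₗ[ℂ] W) (N : ℕ) (x : ExteriorAlgebra ℂ V) (w : W) :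
    (frobP F G ^ N) (x ⊗ₜ[ℂ] w) = (frobA F ^ N) x ⊗ₜ[ℂ] (G ^ N) w := by
  induction N generalizing x w with
  | zero => simp
  | succ N ih =>
    rw [pow_succ, Module.End.mul_apply, frobP, TensorProduct.map_tmul, ← frobP, ih, pow_succ,
      pow_succ, Module.End.mul_apply, Module.End.mul_apply]

/-- The products of odd classes. -/
theorem oddProducts {q : ℕ} (hq : 0 < q) {F : V →ₗ[ℂ] V} {H : ℕ → Submodule ℂ W} {G : W →ₗ[ℂ] W}
    {C : ℕ → Submodule ℂ ((ExteriorAlgebra ℂ V) ⊗[ℂ] W)}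
    (hT : TateSS (frobP F G) q (degP V H) C) : OddProducts F G q H C := by
  intro i j N hj hji hN x hx hx0 hFx w hw hgen
  obtain ⟨k, hk⟩ := hgen
  have hqC : (q : ℂ) ≠ 0 := by exact_mod_cast hq.ne'
  have h1 : x ⊗ₜ w ∈ degP V H (2 * i) :=
    Submodule.subset_span ⟨j, 2 * i - j, by omega, x, hx, w, hw, rfl⟩
  have hμ : ((q : ℂ) ^ i) ^ (2 * N) = ((q : ℂ) ^ j) ^ N * ((q : ℂ) ^ (2 * i - j)) ^ N := by
    rw [← mul_pow, ← pow_add, Nat.add_sub_cancel' hji, pow_mul]
    simp only [← pow_mul]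
    congr 1
    ring
  have h2 : ∀ (k : ℕ) (w : W), gen (frobP F G) (((q : ℂ) ^ i) ^ (2 * N)) (2 * N) k (x ⊗ₜ[ℂ] w) =
      x ⊗ₜ[ℂ] ((((q : ℂ) ^ j) ^ N) ^ k •
        gen G (((q : ℂ) ^ (2 * i - j)) ^ N) (2 * N) k w) := by
    intro k
    induction k with
    | zero => intro w; rw [gen_zero, gen_zero, pow_zero, one_smul]
    | succ k ih =>
      intro w
      rw [gen_succ, frobP_pow, hFx, hμ, ← TensorProduct.smul_tmul', mul_smul,
        ← TensorProduct.tmul_smul, ← TensorProduct.tmul_smul, ← TensorProduct.tmul_smul,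
        ← TensorProduct.tmul_sub, ← smul_sub, TensorProduct.tmul_smul, map_smul, ← hμ, ih,
        gen_succ, ← TensorProduct.tmul_smul, smul_smul, pow_succ']
  have h3 := hT i (2 * N) (by omega) _ h1 ⟨k, (h2 k w).trans (by
    have h4 : gen G (((q : ℂ) ^ (2 * i - j)) ^ N) (2 * N) k w = 0 := hk
    rw [h4, smul_zero, TensorProduct.tmul_zero])⟩
  refine ⟨?_, h3.2⟩
  have h5 := h3.1
  rw [frobP_pow, hFx, hμ, ← TensorProduct.smul_tmul', ← TensorProduct.tmul_smul,
    ← TensorProduct.tmul_smul, ← sub_eq_zero, ← TensorProduct.tmul_sub] at h5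
  have h6 := tmul_left_cancel hx0 h5
  rw [mul_smul, ← smul_sub] at h6
  exact sub_eq_zero.1 ((smul_eq_zero.1 h6).resolve_left (pow_ne_zero _ (pow_ne_zero _ hqC)))

theorem oddProducts_of_halfFree {q : ℕ} {F : V →ₗ[ℂ] V} {H : ℕ → Submodule ℂ W}
    {G : W →ₗ[ℂ] W} {e : W} {ε : W →ₗ[ℂ] ℂ} (hU : IsVariety H G e ε)
    {C : ℕ → Submodule ℂ ((ExteriorAlgebra ℂ V) ⊗[ℂ] W)}
    (h : HalfFree (frobA F) q (deg V) ∨ HalfFree G q H) : OddProducts F G q H C := by
  intro i j N hj hji hN x hx hx0 hFx w hw hgen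
  rcases h with h | h
  · exact absurd (h j j N hj hj hN x hx hFx) hx0
  · have hw0 : w = 0 := by
      by_contra hw0
      obtain ⟨k, hk⟩ := hgen
      have hfin := hU.fin (2 * i - j)
      obtain ⟨β, hβ, u, hu, hu0, hGu⟩ := exists_eigen (hU.stable _) hw hw0 hk
      have hodd : Odd (2 * i - j) := by
        obtain ⟨r, hr⟩ := hj
        exact ⟨i - r - 1, by omega⟩
      refine hu0 (h (2 * i - j) (2 * i - j) N hodd hodd hN u hu ?_)
      rw [eigen_pow hGu, hβ]
    rw [hw0, map_zero, smul_zero, TensorProduct.tmul_zero]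
    exact ⟨rfl, Submodule.zero_mem _⟩

/-- The converse. -/
theorem tateSS_factors {q : ℕ} {F : V →ₗ[ℂ] V} {H : ℕ → Submodule ℂ W} {G : W →ₗ[ℂ] W} {e : W}
    {ε : W →ₗ[ℂ] ℂ} (hU : IsVariety H G e ε)
    {CA : ℕ → Submodule ℂ (ExteriorAlgebra ℂ V)} {CU : ℕ → Submodule ℂ W}
    {C : ℕ → Submodule ℂ ((ExteriorAlgebra ℂ V) ⊗[ℂ] W)} (hC : IsCycles ε CA CU C)
    (hT : TateSS (frobP F G) q (degP V H) C) :
    TateSS (frobA F) q (deg V) CA ∧ TateSS G q H CU := by
  constructor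
  · intro i N hN x hx hgen
    obtain ⟨k, hk⟩ := hgen
    have h1 : x ⊗ₜ e ∈ degP V H (2 * i) :=
      Submodule.subset_span ⟨2 * i, 0, by ring, x, hx, e, hU.unit, rfl⟩
    obtain ⟨h2, h3⟩ := hT i N hN _ h1 ⟨k, gen_left hU.frob hk⟩
    constructor
    · have h5 : ∀ (N : ℕ) (x : ExteriorAlgebra ℂ V), (frobP F G ^ N) (x ⊗ₜ[ℂ] e) =
          ((frobA F ^ N) x) ⊗ₜ[ℂ] e := by
        intro N
        induction N with
        | zero => intro x; simp
        | succ N ih =>
          intro x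
          rw [pow_succ, Module.End.mul_apply, frobP, TensorProduct.map_tmul, hU.frob, ← frobP, ih,
            pow_succ, Module.End.mul_apply]
      rw [h5] at h2
      have h6 := congrArg (restrA ε) h2
      rw [restrA_tmul, map_smul, restrA_tmul, hU.point, one_smul, one_smul] at h6
      exact h6
    · have h4 := hC.left i _ h3
      rw [restrA_tmul, hU.point, one_smul] at h4
      exact h4
  · intro i N hN w hw hgen
    obtain ⟨k, hk⟩ := hgen
    have h1 : (1 : ExteriorAlgebra ℂ V) ⊗ₜ w ∈ degP V H (2 * i) :=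
      Submodule.subset_span ⟨0, 2 * i, by ring, 1, one_mem_deg, w, hw, rfl⟩
    obtain ⟨h2, h3⟩ := hT i N hN _ h1 ⟨k, gen_right hk⟩
    constructor
    · have h5 : ∀ (N : ℕ) (w : W), (frobP F G ^ N) ((1 : ExteriorAlgebra ℂ V) ⊗ₜ[ℂ] w) =
          (1 : ExteriorAlgebra ℂ V) ⊗ₜ[ℂ] ((G ^ N) w) := by
        intro N
        induction N with
        | zero => intro w; simp
        | succ N ih =>
          intro w
          rw [pow_succ, Module.End.mul_apply, frobP, TensorProduct.map_tmul, frobA_one, ← frobP, ih,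
            pow_succ, Module.End.mul_apply]
      rw [h5] at h2
      have h6 := congrArg restrU h2
      rw [restrU_tmul, map_smul, restrU_tmul, map_one, one_smul, one_smul] at h6
      exact h6
    · have h4 := hC.right i _ h3
      rw [restrU_tmul, map_one, one_smul] at h4
      exact h4

end Pool.Agent.K6.H79.MU
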